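import Pool.Agent.PRI65.Max
import Pool.Agent.PRI65.Contra
import Pool.Agent.PRI64.Wd
import Pool.Agent.PRI98.Gen
import Pool.Agent.PRI98.Pig
import Pool.Agent.LA53.Rel

set_option autoImplicit false

/-!
# Primitive ideals of `U(W)` from primitive ideals of `U(W_{≥ -1})`
-/

namespace Pool.Agent.PRI22

open Pool.WittPrimes Polynomial

attribute [local instance 100] LieRing.ofAssociativeRing

/-- a two-sided ideal is (left) primitive: it is the annihilator of the simple module `U / M`,
`M` a maximal left ideal -/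
def IsPrimitiveI {U : Type*} [Ring U] (P : TwoSidedIdeal U) : Prop :=
  ∃ M : Ideal U, M.IsMaximal ∧ ∀ a, a ∈ P ↔ ∀ x, a * x ∈ M

variable {k L : Type*} [Field k] [CharZero k] [LieRing L] [LieAlgebra k L]

theorem prim [Uncountable k] (D : WittData k L) (S : LieSubalgebra k L)
    (hS : S.toSubmodule = Submodule.span k (D.b '' {n | -1 ≤ n}))
    (P : TwoSidedIdeal (UniversalEnvelopingAlgebra k L)) (hP : IsPrimeI P)
    (h : IsPrimitiveI (P.comap (iotaU S))) : IsPrimitiveI P := by
  classical
  obtain ⟨M, hM, hQ⟩ := h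
  by_contra hcon
  have h1 : ∀ c : k, (1 : UniversalEnvelopingAlgebra k L) ∈
      Ideal.span ((iotaU S '' {w | PRI65.th D S hS c w ∈ M}) ∪ {p | p ∈ P}) := by
    intro c
    by_contra hc
    exact hcon (PRI65.max_step D S hS M hM (P.comap (iotaU S)) hQ P hP rfl c hc)
  obtain ⟨s, hs⟩ : ∃ s : List ℤ → UniversalEnvelopingAlgebra k L,
    s = PRI64.wrd fun n => UniversalEnvelopingAlgebra.ι k (D.b n) := ⟨_, rfl⟩
  obtain ⟨t, ht⟩ : ∃ t : List ℤ → UniversalEnvelopingAlgebra k S,
    t = PRI64.wrd (eS D S hS) := ⟨_, rfl⟩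
  have h2 : ∀ c : k, ∃ z : (List ℤ × List ℤ) →₀ k,
      (1 - z.sum fun p r => r • (s p.1 * iotaU S (t p.2))) ∈ P ∧
      ∀ a : List ℤ, (z.sum fun p r => if p.1 = a then r • t p.2 else 0) ∈
        (M.restrictScalars k).comap (PRI65.th D S hS c).toLinearMap := by
    intro c
    refine PRI98.gen_form (iotaU S) s t ?_ ?_ P _ ?_
    · rw [hs]
      exact PRI64.wrd_L D
    · rw [ht]
      exact PRI64.wrd_S D S hS
    · exact h1 c
  choose z hz1 hz2 using h2
  obtain ⟨F, hF⟩ := PRI98.pigeon fun c => (z c).support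
  have hPQ : P = PQ D S hS (P.comap (iotaU S)) := by
    obtain ⟨e1, e2⟩ := PQ_spec D S hS (P.comap (iotaU S)) (prime_restrict D S hS P hP)
    refine prime_inj D S hS P _ hP e1 ?_
    ext w
    rw [TwoSidedIdeal.mem_comap (iotaU S) (I := PQ D S hS (P.comap (iotaU S))), e2]
  obtain ⟨q, hq, x, hx1, hx2⟩ := LA53.rel (tsiSub P) (M.restrictScalars k)
    (fun p : F => p.1.1) (1 : UniversalEnvelopingAlgebra k L)
    (fun p : F => s p.1.1 * iotaU S (t p.1.2)) (fun p : F => Psi D S hS (t p.1.2))
    {c | (z c).support = F} hF (by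
      intro c hc
      have hc' : (z c).support = F := hc
      refine ⟨fun p => z c p.1, ?_, fun a => ?_⟩
      · have e1 := hz1 c
        rw [Finsupp.sum, hc', ← Finset.sum_coe_sort] at e1
        exact e1
      · have e1 := hz2 c a
        rw [Finsupp.sum, hc', ← Finset.sum_coe_sort, Submodule.mem_comap, map_sum] at e1
        refine (congrArg (· ∈ M.restrictScalars k) (Finset.sum_congr rfl fun p _ => ?_)).mp e1
        split_ifs with h3
        · rw [← PRI65.th_eq]
          exact map_smul (PRI65.th D S hS c) _ _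
        · exact map_zero _)
  apply hM.ne_top
  rw [Ideal.eq_top_iff_one]
  refine PRI65.theta_contra D S hS (P.comap (iotaU S)) M (fun a ha => ?_)
    (fun p : F => p.1.1) s (fun p : F => t p.1.2) q hq x (fun n => ?_) hx2
  · have e1 := (hQ a).1 ha 1
    rwa [mul_one] at e1
  · rw [← hPQ]
    exact hx1 n

end Pool.Agent.PRI22
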