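import Mathlib

set_option autoImplicit false

/-!
# Products of shifted powers generate the unit ideal
-/

namespace Pool.Agent.PRI22

theorem unit_ideal {k : Type*} [Field k] {d : ℕ} (l : Fin (d + 1) → k)
    (hl : Function.Injective l) (K : ℕ) :
    Ideal.span (Set.range fun a : Fin (d + 1) =>
      ∏ i : Fin d, (MvPolynomial.X i - MvPolynomial.C (l a)) ^ K) =
      (⊤ : Ideal (MvPolynomial (Fin d) k)) := by
  by_contra hne
  obtain ⟨m, hm, hle⟩ := Ideal.exists_le_maximal _ hne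
  have hp : m.IsPrime := hm.isPrime
  have h1 : ∀ a : Fin (d + 1), ∃ i : Fin d,
      (MvPolynomial.X i - MvPolynomial.C (l a) : MvPolynomial (Fin d) k) ∈ m := by
    intro a
    have h2 : (∏ i : Fin d, (MvPolynomial.X i - MvPolynomial.C (l a)) ^ K :
        MvPolynomial (Fin d) k) ∈ m := hle (Ideal.subset_span ⟨a, rfl⟩)
    obtain ⟨i, -, hi⟩ := (Ideal.IsPrime.prod_mem_iff (p := m)).1 h2
    exact ⟨i, hp.mem_of_pow_mem _ hi⟩
  choose f hf using h1
  obtain ⟨a, b, hab, hfab⟩ := Fintype.exists_ne_map_eq_of_card_lt f (by simp)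
  have h3 := hf b
  rw [← hfab] at h3
  have h4 := m.sub_mem (hf a) h3
  rw [sub_sub_sub_cancel_left, ← map_sub] at h4
  exact hm.ne_top (Ideal.eq_top_of_isUnit_mem _ h4 ((isUnit_iff_ne_zero.2
    (sub_ne_zero.2 fun h => hab (hl h.symm))).map (MvPolynomial.C : k →+* MvPolynomial (Fin d) k)))

end Pool.Agent.PRI22
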